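import Pool.Agent.Q181.LR.Fst

set_option autoImplicit false

/-! The logarithmic law in `L`-theory: how close to `3 / √2` the norm of a quadratic form over the
integral group ring of a torsion-free group can be if its class does not come from cyclic
subgroups. -/

namespace Pool.Agent.Results.MP_98022b_gt.LogarithmicLaw

open TH57.Thr TH6.LF Pool.Agent.Q181.LR

/-- Let `Γ` be torsion-free and `ε = ± 1`.
1. Forms `ψ` of rank `n` with `‖ψ + ε ψ*‖ ≤ 3 / √2 + 2 ^ -(2 n + 30)` come from cyclic subgroups.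
2. So do the nonsingular forms with `‖(ψ + ε ψ*)⁻¹‖ ≤ K`, `‖ψ + ε ψ*‖ ≤ 3 / √2 + 2 ^ -(8 K + 31)`.
3. Hence if no form representing `ψ` comes from cyclic subgroups and a representative of rank
   `N = n + 2 q` has norm at most `3 / √2 + 2 ^ -L`, then `L < 2 N + 30`, and `L < 8 K + 31` if the
   inverse of its adjoint has norm at most `K`.
4. Conversely every `ψ` has, for all `L ≥ 1`, representatives of norm at most `3 / √2 + 2 ^ -L` and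
   rank at most `n + 2 C L`, and the inverse has norm at most `C L` if `ψ` is nonsingular. -/
theorem result (Γ : Type) [Group Γ]
    (htf : ∀ g : Γ, ∀ k : ℕ, 0 < k → g ^ k = 1 → g = 1) (ε : ℤ) (hε : ε = 1 ∨ ε = -1) :
    (∀ (n : ℕ) (ψ : Matrix (Fin n) (Fin n) (MonoidAlgebra ℤ Γ)),
      NormLE (ψ + ε • adj ψ) (3 / Real.sqrt 2 + (1 / 2) ^ (2 * n + 30)) → FromCyclic ε ψ) ∧
    (∀ (n : ℕ) (ψ : Matrix (Fin n) (Fin n) (MonoidAlgebra ℤ Γ)) (K : ℕ)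
      (Λ : (Matrix (Fin n) (Fin n) (MonoidAlgebra ℤ Γ))ˣ), Λ.val = ψ + ε • adj ψ →
      NormLE Λ⁻¹.val K →
      NormLE (ψ + ε • adj ψ) (3 / Real.sqrt 2 + (1 / 2) ^ (8 * K + 31)) → FromCyclic ε ψ) ∧
    (∀ (n : ℕ) (ψ : Matrix (Fin n) (Fin n) (MonoidAlgebra ℤ Γ)),
      (¬ ∃ (q : ℕ) (ψ' : Matrix (Fin n ⊕ (Fin q ⊕ Fin q)) (Fin n ⊕ (Fin q ⊕ Fin q))
        (MonoidAlgebra ℤ Γ)), FormRep ψ ψ' ∧ FromCyclic ε ψ') →
      ∀ (q L : ℕ) (ψ' : Matrix (Fin n ⊕ (Fin q ⊕ Fin q)) (Fin n ⊕ (Fin q ⊕ Fin q))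
        (MonoidAlgebra ℤ Γ)), FormRep ψ ψ' →
        NormLE (ψ' + ε • adj ψ') (3 / Real.sqrt 2 + (1 / 2) ^ L) →
        L < 2 * (n + 2 * q) + 30 ∧
        ∀ (K : ℕ) (Λ : (Matrix (Fin n ⊕ (Fin q ⊕ Fin q)) (Fin n ⊕ (Fin q ⊕ Fin q))
          (MonoidAlgebra ℤ Γ))ˣ), Λ.val = ψ' + ε • adj ψ' → NormLE Λ⁻¹.val K → L < 8 * K + 31) ∧
    (∀ (n : ℕ) (ψ : Matrix (Fin n) (Fin n) (MonoidAlgebra ℤ Γ)),
      ∃ C : ℕ, ∀ L : ℕ, 1 ≤ L → ∃ (q : ℕ) (ψ' : Matrix (Fin n ⊕ (Fin q ⊕ Fin q))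
        (Fin n ⊕ (Fin q ⊕ Fin q)) (MonoidAlgebra ℤ Γ)), FormRep ψ ψ' ∧ q ≤ C * L ∧
        NormLE (ψ' + ε • adj ψ') (3 / Real.sqrt 2 + (1 / 2) ^ L) ∧
        (IsUnit (ψ + ε • adj ψ) → ∃ Λ : (Matrix (Fin n ⊕ (Fin q ⊕ Fin q))
          (Fin n ⊕ (Fin q ⊕ Fin q)) (MonoidAlgebra ℤ Γ))ˣ,
          Λ.val = ψ' + ε • adj ψ' ∧ NormLE Λ⁻¹.val (C * L : ℕ))) := by
  refine ⟨fun n ψ h => forms_size htf ε hε ψ (by rwa [Fintype.card_fin]),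
    fun n ψ K Λ hΛ hK h => forms_inv htf ε hε ψ K Λ hΛ hK h,
    fun n ψ h q L ψ' hR hN => forms_law htf ε hε ψ h q L ψ' hR hN,
    fun n ψ => forms_upper ε hε ψ⟩

end Pool.Agent.Results.MP_98022b_gt.LogarithmicLaw
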