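import Pool.Agent.Q184.Mit.Lim

/-!
# Embedding Farrell–Jones groups in mitotic Farrell–Jones groups

`C` is any class of groups with the closure properties `ClosedE C`, all of which are known for the
class of the groups that satisfy the K- and L-theoretic Farrell–Jones conjecture with coefficients
and finite wreath products. For a torsion-free group in that class the assembly map of the problem
is an equivalence.

A group `M` is mitotic if for every finitely generated subgroup `H` there are `s` and `d` in `M` such
that `s H s⁻¹` commutes with `H` and `d x d⁻¹ = x * (s x s⁻¹)` for all `x` in `H`. Mitotic groups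
are acyclic (Baumslag, Dyer, Heller), so for a torsion-free mitotic group in the class the
`L`-groups are those of the trivial group.

Outline of the proof. Let `T` be the disjoint union of three copies of a Cantor set, let `σ` be the
homeomorphism of `T` which exchanges the first two copies, and `δ` a homeomorphism which takes the
first copy onto the union of the first two. Let `W G` be the group of the locally constant functions
from `T` to `G`, extended by a free group of rank two with basis acting by `σ` and `δ`. The functions
supported on the first copy and constant there form a copy of `G`, and the two basis elements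
satisfy the equations. By the theorem on Boolean powers (`Q9.FJT.lc_mem`) `W G` is in `C` if `G` is,
whatever the homeomorphisms. The mitotic group is the union of the groups `W (W (⋯ (W G)))`.
-/

set_option autoImplicit false

namespace Pool.Agent.Results.MP_98022b_gt.MitoticEmbedding

open Pool.Agent.Y110.FJ (ClosedE)
open Q30.FJ (TorsionFree)
open Q184.Mit (Mitotic)

/-- Every group `G` embeds in a mitotic group `M`, countable if `G` is countable and torsion-free if
`G` is torsion-free, such that for every class `C` of groups with the closure properties
`ClosedE C`:

1. `M` is in `C` if and only if `G` is in `C`;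

2. if `G` is countable and in `C`, then `M` embeds in a two-generated group `Γ` in `C`, torsion-free
if `G` is. -/
theorem result (G : Type) [Group G] :
    ∃ (M : Type) (_ : Group M) (ι : G →* M), Function.Injective ι ∧ Mitotic M ∧
      (Countable G → Countable M) ∧ (TorsionFree G → TorsionFree M) ∧
      ∀ C : ∀ (G : Type) [Group G], Prop, ClosedE C →
        (C M ↔ C G) ∧
        (Countable G → C G → ∃ (Γ : Type) (_ : Group Γ) (a b : Γ) (κ : M →* Γ),
          C Γ ∧ Subgroup.closure {a, b} = ⊤ ∧ Function.Injective κ ∧
          (TorsionFree G → TorsionFree Γ)) := by
  obtain ⟨M, hM, ι, hι, hmit, hcount, htf, hC⟩ := Q184.Mit.exists_mitotic G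
  refine ⟨M, hM, ι, hι, hmit, hcount, htf, fun C hCl => ⟨⟨fun h => ?_, hC C hCl⟩, ?_⟩⟩
  · exact hCl.base.of_injective G M ι hι h
  · intro hc hG
    have h1 : Countable M := hcount hc
    obtain ⟨Γ, gΓ, a, b, κ, h2, h3, h4, h5⟩ := Q30.FJ.embed hCl M (hC C hCl hG)
    exact ⟨Γ, gΓ, a, b, κ, h2, h3, h4, fun h => h5 (htf h)⟩

end Pool.Agent.Results.MP_98022b_gt.MitoticEmbedding
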