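import Pool.Agent.Q181.GP.State

set_option autoImplicit false

/-! A gap theorem in `L`-theory: over the integral group ring of every group, quadratic forms which
are close to their inverses and isometries of small norm are standard. -/

namespace Pool.Agent.Results.MP_98022b_gt.NormGap

open TH57.Thr TH6.LF Pool.Agent.Q181.GP

theorem result :
    (∀ (Γ : Type) [Group Γ] (w : Γ →* ℤˣ) (ε : ℤ), (ε = 1 ∨ ε = -1) →
      (∀ g : Γ, g * g = 1 → g ≠ 1 → ((w g : ℤˣ) : ℤ) = ε) →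
      ∀ (n : ℕ) (ψ M : Matrix (Fin n) (Fin n) (MonoidAlgebra ℤ Γ)), InvForm w ε ψ M →
        (RowSum (lam w ε ψ) M 5 ∨
          ∃ c : ℝ, 0 < c ∧ c < 1 + Real.sqrt 2 ∧ NormLE (lam w ε ψ) c ∧ NormLE M c) →
        Standard w ε ψ) ∧
    (∀ (Γ : Type) [Group Γ] (w : Γ →* ℤˣ) (ε : ℤ), (ε = 1 ∨ ε = -1) →
      ∀ (m : ℕ) (A : (Matrix (Fin m ⊕ Fin m) (Fin m ⊕ Fin m) (MonoidAlgebra ℤ Γ))ˣ),
        IsoG w ε A.val →
        (PairSum A.val 5 ∨ ∃ c : ℝ, 0 < c ∧ c < 1 + Real.sqrt 2 ∧ NormLE A.val c) →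
        A ∈ WallG w ε (Fin m)) ∧
    (∀ ε : ℤ, (ε = 1 ∨ ε = -1) →
      ∃ ψ M : Matrix (Fin 2) (Fin 2) (MonoidAlgebra ℤ (Multiplicative (ZMod 5))),
        InvForm 1 ε ψ M ∧ RowSum (lam 1 ε ψ) M 6 ∧
        NormLE (lam 1 ε ψ) ((3 + Real.sqrt 5) / 2) ∧ NormLE M ((3 + Real.sqrt 5) / 2) ∧
        ∀ k : ℕ, ¬ Standard 1 ε (addHyp (Fin k) ψ)) :=
  ⟨fun _ _ w _ hε h2 _ ψ M h hN => gap_forms w hε h2 ψ M h hN,
    fun _ _ w _ hε _ A hA hN => gap_isos w hε A hA hN,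
    fun _ hε => gap_sharp hε⟩

end Pool.Agent.Results.MP_98022b_gt.NormGap
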