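import Pool.Agent.Q9.FJA.VBm

/-!
# Virtual braid groups

`C` is any class of groups with the closure properties `ClosedE C`, all of which are known for the
class of the groups that satisfy the L-theoretic Farrell–Jones conjecture with coefficients and
finite wreath products. This class contains the Coxeter groups of finite rank (they act properly and
cocompactly on CAT(0) spaces) and the Artin groups of affine type `A` (they embed in the braid
groups). `D` is any class with the properties `ClosedOver C D`; `D = C` is possible.

`VB n` is the virtual braid group on `n + 1` strands, given by its usual presentation. For a set `X`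
let `KV X` be the Coxeter matrix on the set `Pr X` of the ordered pairs of different elements of `X`
with the entry `3` for `(i, j)`, `(j, k)` with `i ≠ k`, the entry `2` for disjoint pairs and the
entry infinity for the other pairs of pairs. By Rabenda and Bardakov–Bellingeri `VB n` is the
semidirect product of the Artin group of `KV X` and the symmetric group of `X = Fin (n + 1)`; the
embedding `VB n → Artin (KV X) ⋊ Perm X` is proved here.

Outline of the proof. The kernel theorem for Artin groups (see `Q9.FJA.Ker`) reduces everything
to the finite subsets `T` of `Pr X` without infinite entries. In such a set each element of `X` occurs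
at most once as a first and at most once as a second entry, and no pair occurs with its opposite.
So `T` is part of a permutation of a finite set without cycles of length two, and its Artin group
embeds in a product of Artin groups of affine type `A` (one for each cycle).
-/

set_option autoImplicit false

namespace Pool.Agent.Results.MP_98022b_gt.VirtualBraids

open Pool.Agent.Y110.FJ (ClosedE)
open Q30.FJ (ClosedOver)
open Q9.FJA

/-- Let `C` be a class of groups with the closure properties `ClosedE C` which contains the Coxeter
groups of finite rank and the Artin groups of the affine types `A` (the cycles with `k ≥ 3` vertices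
and labels `3`), and let the class `D` be closed under subgroups and satisfy the extension
principle over `C`.

1. All virtual braid groups are in `C`.

2. Let `X` be any set and let the normal subgroup `N` of `G` be isomorphic to the Artin group of
`KV X`, such that for each `g` in `G` and each finite set `F` of pairs there are a permutation `w` of
`X` and an element `n` of `N` such that the conjugation by `n g` maps the generator of each pair
`(x, y)` in `F` to the generator of `(w x, w y)`. If `G ⧸ N` is in `D`, then `G` is in `D`.

3. If the group `Q` is in `D` and acts on the set `X`, then the semidirect product of the Artin group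
of `KV X` and `Q` is in `D`. -/
theorem result (C D : ∀ (G : Type) [Group G], Prop) (hC : ClosedE C) (hD : ClosedOver C D)
    (hW : ∀ (n : ℕ) (M : CoxeterMatrix (Fin n)), C M.Group)
    (hA : ∀ k, 3 ≤ k → C (Artin (cyc k))) :
    (∀ n : ℕ, C (VB n)) ∧
    (∀ (X : Type) [DecidableEq X] (G : Type) [Group G] (N : Subgroup G) [N.Normal], D (G ⧸ N) →
      ∀ e : Artin (KV X) ≃* N,
      (∀ (g : G) (F : Finset (Pr X)), ∃ (w : Equiv.Perm X) (n : N), ∀ p ∈ F,
        ((n : G) * g) * (e (sg (artinData (KV X)) p) : G) * ((n : G) * g)⁻¹ =
          e (sg (artinData (KV X)) (pact X w p))) → D G) ∧
    (∀ (X Q : Type) [DecidableEq X] [Group Q] (ρ : Q →* Equiv.Perm X), D Q →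
      D (Artin (KV X) ⋊[(kaut X).comp ρ] Q)) := by
  refine ⟨vb_mem hC hW hA, ?_, fun X Q _ _ ρ hQ => vs_mem hC hD hW hA X Q hQ ρ⟩
  intro X _ G _ N _ hQ e h
  refine shep_kernel (artinData (KV X)) hC hD hW (fun T hT => kv_mem hC hA T hT) G N hQ e ?_
  intro g F
  obtain ⟨w, n, hn⟩ := h g F
  refine ⟨⟨pact X w, pact X w⁻¹, fun p => ?_, fun p => ?_⟩, n,
    ⟨fun u v => km_pact X _ u v, fun _ => rfl⟩, hn⟩
  · rw [← pact_mul, inv_mul_cancel, pact_one]
  · rw [← pact_mul, mul_inv_cancel, pact_one]

end Pool.Agent.Results.MP_98022b_gt.VirtualBraids
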